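import Pool.Agent.Q4.SPC.Pub4
import Pool.Agent.Q4.GLC.Fin
import Pool.Agent.Q214.SPC.SA1
import Pool.Agent.Q252.SPC.SA2
import Pool.Agent.Q252.SPC.SB
import Pool.Agent.Q162.SPC.SCR
import Pool.Agent.Q150.SPC.SC1
import Pool.Agent.Q68.SPC.SC2
import Pool.Agent.Q198.SPC.SD
import Pool.Agent.Q184.SPC.SE1
import Pool.Agent.Q5.SPC.SE2
import Pool.Agent.Q151.SPC.SE3
import Pool.Agent.Q151.SPC.SE4
import Pool.Agent.Q158.SPC.SF
import Pool.Agent.Q238.SPC.SG
import Pool.Agent.Q211.SPC.SI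
import Pool.Agent.Q5.SPC.SH
import Pool.Agent.Q5.SPC.SO2
import Pool.Agent.Q121.SPC.GI
import Pool.Agent.Q277.SPC.GF
import Pool.Agent.Q182.SPC.GG
import Pool.Agent.Q109.SPC.GS
import Pool.Agent.Q109.SPC.GX
import Pool.Agent.Q230.SPC.GN
import Pool.Agent.Q254.SPC.HS1
import Pool.Agent.Q153.SPC.HS2
import Pool.Agent.Q190.SPC.TR
import Pool.Agent.Q31.SPC.TL
import Pool.Agent.Q25.SPC.LG

/-!
# The Calegari-Geraghty vanishing conjecture for `GL_n`, `SL_n`, `GSp_{2n}`, `Sp_{2n}` over number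
fields in the degrees `0` and `1`
-/

open IsDedekindDomain NumberField Matrix

namespace Pool.Agent.Results.MP_34be05_nt.ClassicalGroupsLowDegrees

open Q4.GLC Q4.SPC Q4.SPC.Pb

/-- Let `F` be a number field.

(1), (2) Let `G` be `GL_n` or `SL_n` with `n ≥ 3`, `G₁ = SL_n`, or `GSp_{2n}` or `Sp_{2n}` with
`n ≥ 2`, `G₁ = Sp_{2n}`. Let `Γ` be a subgroup of finite index of `G(F)`, `K` a subgroup of the finite
adelic points of `G`, `W` an abelian group with an action of `K`, such that a principal congruence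
subgroup is contained in `K` and acts trivially on `W`, and `S` a set of places such that for
`v ∉ S` the component of `K` at `v` is `G(O_v)` and acts trivially on `W`; if `G` is `GSp_4` or
`Sp_4` and `W` has elements of order two let `S` contain the places of norm `2`. For `v ∉ S` and a
diagonal matrix `t ∈ G₁(F_v)` let `T` be the Hecke operator of `G(O_v) t G(O_v)` and `D = T - deg T`.
Then `D = 0` on `H^0(Γ, M_W)` and `D D' D'' = 0` on `H^1(Γ, M_W)` for all `D`, `D'`, `D''`.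

(3) Let `S` be a finite set of places, `k` an algebraically closed field of characteristic `ℓ > 0`
and `L/F` a finite Galois extension. Every projective representation of `Gal(L/F)` over `k` of
degree `n ≥ 2` for which the characteristic polynomials of the Frobenius elements at the places
`v ∉ S` prime to `ℓ` are of the form `∏ (X - a q_v^i)`, `0 ≤ i < n`, is reducible. Every
representation of `Gal(L/F)` over `k` of degree `2n+1`, `n ≥ 1`, which preserves a quadratic form and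
for which these characteristic polynomials are `∏ (X - q_v^i)`, `-n ≤ i ≤ n`, has an invariant line
on which the quadratic form vanishes. -/
theorem result (F : Type) [Field F] [NumberField F] :
    (∀ n, 3 ≤ n → Unip F (glF n) (slF n) False ∧ Unip F (slF n) (slF n) False) ∧
    (∀ n, 2 ≤ n → Unip F (gspF n) (spF n) (n = 2) ∧ Unip F (spF n) (spF n) (n = 2)) ∧
    ∀ (ℓ : ℕ) [Fact ℓ.Prime] (k : Type) [Field k] [IsAlgClosed k] [CharP k ℓ] (S : Set (Pl F)),
      S.Finite → ∀ (L : Type) [Field L] [NumberField L] [Algebra F L] [IsGalois F L] (n : ℕ),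
        (2 ≤ n → ∀ r : (L ≃ₐ[F] L) → GL (Fin n) k, IsProj r → FrobP r S (PolyP n) → Red r) ∧
        (1 ≤ n → ∀ (r : (L ≃ₐ[F] L) →* GL (Fin (2 * n + 1)) k)
          (q : QuadraticForm k (Fin (2 * n + 1) → k)), Preserves r q → FrobP r S (PolyO n) →
          SingLine r q) := by
  have h : Inp :=
    { SA := Pool.Agent.Q252.SPC.SA2.sA2 Pool.Agent.Q214.SPC.sA1
      SB := Pool.Agent.Q252.SPC.SB.sB
      SCR := Pool.Agent.Q162.SPC.scr
      SC1 := Pool.Agent.Q150.SPC.SC1.t
      SC2 := Pool.Agent.Q68.SPC.sc2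
      SD := Pool.Agent.Q198.SPC.t_SD
      SE1 := Q184.SPC.t_SE1
      SE2 := Pool.Agent.Q5.SPC.tSE2
      SE3 := Pool.Agent.Q151.SPC.t_SE3
      SE4 := Pool.Agent.Q151.SPC.t_SE4
      SF := Q158.SPC.sf
      SG := Pool.Agent.Q238.SPC.sg
      SI := Pool.Agent.Q211.SPC.si
      SH := Pool.Agent.Q5.SPC.tSH
      SO2 := Pool.Agent.Q5.SPC.tSO2
      GI := Pool.Agent.Q121.SPC.gi
      GF := Q277.SPC.gf
      GG := Pool.Agent.Q182.SPC.gg
      GS := Pool.Agent.Q109.SPC.gs
      GX := Pool.Agent.Q109.SPC.gx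
      GN := Q230.SPC.tGN
      Idf := tIdf tCls tApp tInt }
  have hTR := Pool.Agent.Q190.SPC.t_TR
  have hTL := Pool.Agent.Q31.SPC.tl
  have hHS1 := Pool.Agent.Q254.SPC.hs1
  have hHS2 := Pool.Agent.Q153.SPC.hs2
  have hLG := Pool.Agent.Q25.SPC.lg
  have hLF := Q277.SPC.LFj.lf
  exact ⟨fun n hn => ⟨unipGL hTR hTL hLG hLF hn, unipSL hHS2 hLG hLF hn⟩,
    fun n hn => ⟨unipGSp h hTR hTL hn, unipSp h hTR hTL hHS1 hn⟩,
    fun ℓ _ k _ _ _ S hS L _ _ _ _ n =>
      ⟨fun hn r hr hP => galP Pool.Agent.Q58.SPC.lp ℓ hS hn r hr hP,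
        fun hn r q hq hP => galO h ℓ hS hn r q hq hP⟩⟩

end Pool.Agent.Results.MP_34be05_nt.ClassicalGroupsLowDegrees
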