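import Pool.Agent.Q4.GLC.Gal
import Pool.Agent.Q4.GLC.Eig
import Pool.Agent.Q4.GLC.Den
import Pool.Agent.Q4.GLC.Cen
import Pool.Agent.Q4.GLC.Fin
import Pool.Agent.Q4.GLC.Dns
import Pool.Agent.Q4.GLC.Per
import Pool.Agent.Q4.GLC.Sre
import Pool.Agent.Q4.GLC.Sra
import Pool.Agent.Q4.GLC.Cls
import Pool.Agent.Q4.GLC.App

/-!
# The Calegari-Geraghty vanishing conjecture for `GL_n` over number fields in the degrees `0` and `1`
-/

open IsDedekindDomain NumberField Matrix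

namespace Pool.Agent.Results.MP_34be05_nt.LowDegrees

open Q4.GLC

/-- Let `F` be a number field, `n ≥ 3`, `Γ` a subgroup of finite index of `GL_n(F)`, `K` an open
compact subgroup of `GL_n` of the finite adeles and `W` a smooth representation of `K` over an
algebraically closed field `k`. Let `S` be a set of places such that for `v ∉ S` the component of
`K` at `v` is `GL_n(O_v)` and acts trivially on `W`. Then every system `θ` of eigenvalues of the
Hecke operators `T_{v,j}`, `v ∉ S`, `j ≤ n`, in `H^0(Γ, M_W)` or in `H^1(Γ, M_W)` is that of a sum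
of the characters `ψ, q ψ, …, q^{n-1} ψ`. If `k` has characteristic `ℓ > 0` and `S` is finite, every
representation `r` over `k` of the Galois group of a finite Galois extension of `F` which is
attached to `θ` outside `S` is reducible. -/
theorem result (F : Type) [Field F] [NumberField F] (n : ℕ) (hn : 3 ≤ n) (k W : Type) [Field k]
    [IsAlgClosed k] [AddCommGroup W] [Module k W] (Γ : Subgroup (GQ F n)) (hΓ : Γ.FiniteIndex)
    (K : Subgroup (Gf F n)) (ρ : Representation k K W) (hK : LevelG (UN F n) K ρ)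
    (S : Set (Pl F)) (hS : UnramOut K ρ S) (θ : Pl F → ℕ → k) (h : Eig Γ K ρ S θ) :
    IsEis Γ S θ ∧ ∀ (ℓ : ℕ) [Fact ℓ.Prime] [CharP k ℓ], S.Finite →
      ∀ (L : Type) [Field L] [NumberField L] [Algebra F L] [IsGalois F L]
        (r : (L ≃ₐ[F] L) →* GL (Fin n) k), Attached r S θ → Reducible r := by
  have hSre := tSre
  have hDen := tDen
  have hSlf := tSlf hSre
  have hDns := tDns hSre tSra tApp hDen
  have hCen := tCen (tVan hDen) tDec hDen tInt hSre
  have hFin := tFin (tIdf tCls tApp tInt) hDns hDen hSlf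
  have hCnt := tCnt tPar
  have hSys := mkSys hDen hDns hSlf hCen hFin hn Γ hΓ
  obtain ⟨⟨N1, hN1, hNK, hNF⟩, ⟨N2, hN2, hN2ρ⟩⟩ := hK
  have hK' : ∃ N : ℕ, 1 ≤ N ∧ ∀ u ∈ UN F n N, ∃ h : u ∈ K, ρ ⟨u, h⟩ = 1 :=
    ⟨N1 * N2, Nat.mul_pos hN1 hN2, fun u hu =>
      ⟨hNK (UN_mono (Dvd.intro _ rfl) hu), hN2ρ ⟨u, _⟩ (UN_mono (Dvd.intro_left _ rfl) hu)⟩⟩
  have hHD : ∀ p : HIdx F n S,
      HD K ρ (Matrix.GeneralLinearGroup.det : Gf F n →* (Af F)ˣ) (Kv n p.1.1)
        (tm n p.1.2.1 p.1.2.2) := fun p =>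
    mkHD tLoc tRep (tPer hSre) hCnt hn (hS _ p.2.1).1 (hS _ p.2.1).2.1 (hS _ p.2.1).2.2
      p.2.2.1 p.2.2.2
  have hE : IsEis Γ S θ := by
    rcases h with ⟨f, hf, hf0, hinv, hθ⟩ | ⟨c, hc, hc0, hθ⟩
    · exact toEis hCnt tQbt (by omega) Γ S θ
        (case0 tEig hSys hK' _ _ _ hHD f hf hf0 hinv hθ) ex_unif
    · exact toEis hCnt tQbt (by omega) Γ S θ
        (case1 tEig hSys hK' ⟨N1, hN1, hNF⟩ _ _ _ hHD c hc hc0 hθ) ex_unif
  exact ⟨hE, fun ℓ _ _ hSf L _ _ _ _ r hr => eis_red (by omega) ℓ hSf hE r hr⟩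

end Pool.Agent.Results.MP_34be05_nt.LowDegrees
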